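import Pool.Agent.Y377.IL.Stm

/-!
Derivations and algebraic elements; proofs of `S_COM` and `S_FR` (project IL).
-/

set_option autoImplicit false

namespace Pool.Agent.Y43.IL

open Pool.Agent.Y377.EL Pool.Agent.Y377.IL Polynomial

variable {K : Type} [Field K] [Algebra ℂ K]

theorem aeval_mem' {R : Subalgebra ℂ K} {V : Subring K} (hR : ∀ r ∈ R, r ∈ V) {y : K} (hy : y ∈ V)
    (P : R[X]) : aeval y P ∈ V := by
  rw [aeval_eq_sum_range]
  refine V.sum_mem fun i _ => ?_
  rw [Algebra.smul_def]
  exact V.mul_mem (hR _ (P.coeff i).2) (V.pow_mem hy i)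

/-- the derivative of an algebraic element -/
theorem alg_der {δ : Derivation ℂ K K} {B : Subalgebra ℂ K} (hB : Stab δ B) {x : K}
    (hx : IsAlgebraic B x) : ∃ P : B[X], aeval x P = 0 ∧ aeval x (derivative P) ≠ 0 ∧
      aeval x (derivative P) * δ x = - aeval x (dc (dres δ B hB) P) := by
  have hch : CharZero K := charZero_of_injective_algebraMap (algebraMap ℂ K).injective
  obtain ⟨P, hP0, hP, hd, hmin⟩ := exists_min hx
  refine ⟨P, hP, ?_, ?_⟩
  · intro h0
    have h1 : derivative P = 0 := by
      apply hmin _ h0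
      intro m hm
      rw [coeff_derivative, coeff_eq_zero_of_natDegree_lt (by omega), zero_mul]
    have h2 : (derivative P).coeff (P.natDegree - 1) = 0 := by rw [h1, coeff_zero]
    rw [coeff_derivative] at h2
    have h3 : P.natDegree - 1 + 1 = P.natDegree := by omega
    rw [h3] at h2
    have h4 := congrArg (Subtype.val) h2
    have h5 : ((P.coeff P.natDegree : B) : K) * (((P.natDegree - 1 : ℕ) : K) + 1) = 0 := by
      exact_mod_cast h4
    rcases mul_eq_zero.1 h5 with h6 | h6
    · exact hP0 (leadingCoeff_eq_zero.1 (Subtype.ext h6))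
    · exact (Nat.cast_add_one_ne_zero (P.natDegree - 1)) h6
  · have h1 := D_aeval δ B hB x P
    rw [hP, map_zero] at h1
    linear_combination -h1

/-- a derivation which kills a ring kills the algebraic elements -/
theorem alg_zero {E : Derivation ℂ K K} {B : Subalgebra ℂ K} (hE : ∀ b ∈ B, E b = 0) {x : K}
    (hx : IsAlgebraic B x) : E x = 0 := by
  have hB : Stab E B := fun b hb => by rw [hE b hb]; exact B.zero_mem
  obtain ⟨P, hP, hP1, hP2⟩ := alg_der hB hx
  have h1 : dc (dres E B hB) P = 0 := by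
    ext n
    rw [coeff_dc]
    change E ((P.coeff n : B) : K) = _
    rw [hE _ (P.coeff n).2, coeff_zero]
    rfl
  rw [h1, map_zero, neg_zero] at hP2
  exact (mul_eq_zero.1 hP2).resolve_left hP1

/-- elements of finite extensions are algebraic -/
theorem alg_of_fg {B S : Subalgebra ℂ K} (hBS : B ≤ S) (h : FGmod B S) {x : K} (hx : x ∈ S) :
    IsAlgebraic B x := by
  obtain ⟨N, hfg, hN⟩ := h
  let S' : Subalgebra B K :=
    { carrier := {y | y ∈ S}
      mul_mem' := fun ha hb => S.mul_mem ha hb
      add_mem' := fun ha hb => S.add_mem ha hb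
      algebraMap_mem' := fun b => hBS b.2 }
  have h1 : Subalgebra.toSubmodule S' = N := by
    ext y
    rw [hN]
    rfl
  have h2 : IsIntegral B x := IsIntegral.of_mem_of_fg S' (by rw [h1]; exact hfg) x hx
  exact h2.isAlgebraic

theorem t_COM : Pool.Agent.Y377.IL.S_COM := by
  intro K _ _ D δ B S hBS hDB hDS hsimp hfin hδB hcomm
  have halg : ∀ x ∈ S, IsAlgebraic B x := fun x hx => alg_of_fg hBS hfin hx
  have hbr : ∀ x ∈ S, D (δ x) = δ (D x) := by
    intro x hx
    have h1 : (⁅D, δ⁆ : Derivation ℂ K K) x = 0 := by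
      apply alg_zero (B := B) _ (halg x hx)
      intro b hb
      rw [Derivation.commutator_apply, hcomm b hb, sub_self]
    rw [Derivation.commutator_apply] at h1
    exact sub_eq_zero.1 h1
  refine ⟨?_, hbr⟩
  obtain ⟨N, ⟨T, hT⟩, hN⟩ := hfin
  classical
  set N' : Submodule S K := Submodule.span S (insert 1 (δ '' (T : Set K))) with hN'
  have h1N : (1 : K) ∈ N' := Submodule.subset_span (Set.mem_insert _ _)
  have hSN : ∀ s ∈ S, s ∈ N' := by
    intro s hs
    have h1 := N'.smul_mem (⟨s, hs⟩ : S) h1N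
    rw [Algebra.smul_def, mul_one] at h1
    exact h1
  have hTS : ∀ t ∈ T, t ∈ S := fun t ht => (hN t).1 (hT ▸ Submodule.subset_span ht)
  have hδN : ∀ u ∈ S, δ u ∈ N' := by
    intro u hu
    have hu' : u ∈ Submodule.span B (T : Set K) := by rw [hT]; exact (hN u).2 hu
    clear hu
    induction hu' using Submodule.span_induction with
    | mem t ht => exact Submodule.subset_span (Set.mem_insert_of_mem _ ⟨t, ht, rfl⟩)
    | zero => rw [map_zero]; exact N'.zero_mem
    | add a b _ _ ha hb => rw [map_add]; exact N'.add_mem ha hb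
    | smul b a ha' ha =>
      have h1 : δ (b • a) = (b : K) * δ a + a * δ (b : K) := by
        rw [Algebra.smul_def]
        change δ ((b : K) * a) = _
        rw [δ.leibniz, smul_eq_mul, smul_eq_mul]
      rw [h1]
      have haS : a ∈ S := (hN a).1 (hT ▸ ha')
      refine N'.add_mem ?_ (hSN _ (S.mul_mem haS (hBS (hδB _ b.2))))
      have h2 := N'.smul_mem (⟨b, hBS b.2⟩ : S) ha
      rw [Algebra.smul_def] at h2
      exact h2
  have hfrac : ∀ u ∈ S, δ u ∈ frac S := by
    intro u hu
    obtain ⟨P, -, hP1, hP2⟩ := alg_der hδB (halg u hu)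
    have hm : ∀ Q : B[X], aeval u Q ∈ S := fun Q =>
      aeval_mem' (V := S.toSubring) (fun r hr => hBS hr) hu Q
    refine ⟨_, hm _, hP1, ?_⟩
    rw [hP2]
    exact S.neg_mem (hm _)
  intro u hu
  refine hsimp.mem_of_fg hDS (N := N') ?_ ?_ ?_ (hδN u hu)
  · intro x hx
    rw [hN'] at hx
    induction hx using Submodule.span_induction with
    | mem t ht =>
      rcases ht with rfl | ⟨t, ht, rfl⟩
      · rw [D.map_one_eq_zero]; exact N'.zero_mem
      · rw [hbr t (hTS t ht)]
        exact hδN _ (hDS _ (hTS t ht))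
    | zero => rw [map_zero]; exact N'.zero_mem
    | add a b _ _ ha hb => rw [map_add]; exact N'.add_mem ha hb
    | smul b a ha' ha =>
      have h1 : D (b • a) = (b : K) * D a + D (b : K) * a := by
        rw [Algebra.smul_def]
        change D ((b : K) * a) = _
        rw [D.leibniz, smul_eq_mul, smul_eq_mul, mul_comm a]
      rw [h1]
      have h2 := N'.smul_mem b ha
      have h3 := N'.smul_mem (⟨D b, hDS _ b.2⟩ : S) ha'
      rw [Algebra.smul_def] at h2 h3
      exact N'.add_mem h2 h3
  · exact Submodule.fg_span ((T.finite_toSet.image δ).insert 1)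
  · intro x hx
    rw [hN'] at hx
    induction hx using Submodule.span_induction with
    | mem t ht =>
      rcases ht with rfl | ⟨t, ht, rfl⟩
      · exact one_mem _
      · exact hfrac t (hTS t ht)
    | zero => exact zero_mem _
    | add a b _ _ ha hb => exact add_mem ha hb
    | smul b a ha' ha =>
      rw [Algebra.smul_def]
      exact mul_mem (le_frac S b.2) ha

theorem t_FR : Pool.Agent.Y377.IL.S_FR := by
  intro K _ _ D R S hRS hR hS hsimp x hx halg
  set A := loc R S hRS with hA
  have hRA : R ≤ A := hRS.trans (le_loc hRS)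
  have hstA : Stab D A := stab_loc hRS hR hS
  have hinv : ∀ r ∈ R, r ≠ 0 → r⁻¹ ∈ A := by
    intro r hr hr0
    exact ⟨r, hr, hr0, by rw [mul_inv_cancel₀ hr0]; exact S.one_mem⟩
  -- integrality
  have hint : IsIntegral A x := by
    obtain ⟨y, hy0, hy⟩ := halg.exists_integral_multiple
    have h1 : IsIntegral A (y • x) := by
      obtain ⟨p, hp, hp2⟩ := hy
      refine ⟨p.map (Subalgebra.inclusion hRA).toRingHom, hp.map _, ?_⟩
      rw [eval₂_map]
      exact hp2
    have hy0' : (y : K) ≠ 0 := fun h => hy0 (Subtype.ext h)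
    have h2 : x = algebraMap A K ⟨(y : K)⁻¹, hinv _ y.2 hy0'⟩ * (y • x) := by
      rw [Algebra.smul_def]
      change x = (y : K)⁻¹ * ((y : K) * x)
      rw [inv_mul_cancel_left₀ hy0']
    rw [h2]
    exact isIntegral_algebraMap.mul h1
  set V : Subalgebra A K := Algebra.adjoin A {x} with hV
  have hxV : x ∈ V := Algebra.subset_adjoin rfl
  have hAV : ∀ a ∈ A, a ∈ V := fun a ha => V.algebraMap_mem ⟨a, ha⟩
  have hRV : ∀ r ∈ R, r ∈ V.toSubring := fun r hr => hAV r (hRA hr)
  have hDx : D x ∈ V := by
    obtain ⟨P, -, hP1, hP2⟩ := alg_der hR halg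
    set q := aeval x (derivative P) with hq
    have hqV : q ∈ V := aeval_mem' (V := V.toSubring) hRV hxV _
    have hqa : IsAlgebraic R q := by
      have h1 : x ∈ (algC R).toSubring := mem_algC.2 halg
      exact mem_algC.1 (aeval_mem' (V := (algC R).toSubring)
        (fun r hr => mem_algC.2 (alg_of_mem hr)) h1 _)
    obtain ⟨c, hc, hc0, Q, hQ⟩ := exists_base hqa hP1
    have h2 : D x = c⁻¹ * aeval q Q * (- aeval x (dc (dres D R hR) P)) := by
      rw [← hP2, hQ]
      have h3 : q * aeval q Q ≠ 0 := hQ ▸ hc0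
      have h4 : (q * aeval q Q)⁻¹ * aeval q Q * (q * D x) =
          ((q * aeval q Q)⁻¹ * (q * aeval q Q)) * D x := by ring
      rw [h4, inv_mul_cancel₀ h3, one_mul]
    rw [h2]
    exact V.mul_mem (V.mul_mem (hAV _ (hinv c hc hc0))
      (aeval_mem' (V := V.toSubring) hRV hqV _))
      (V.neg_mem (aeval_mem' (V := V.toSubring) hRV hxV _))
  have hDV : ∀ y ∈ V, D y ∈ V := by
    intro y hy
    rw [hV] at hy
    induction hy using Algebra.adjoin_induction with
    | mem y hy =>
      rw [Set.mem_singleton_iff] at hy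
      rw [hy]
      exact hDx
    | algebraMap a => exact hAV _ (hstA _ a.2)
    | add a b _ _ ha hb => rw [map_add]; exact V.add_mem ha hb
    | mul a b ha' hb' ha hb =>
      rw [D.leibniz, smul_eq_mul, smul_eq_mul]
      exact V.add_mem (V.mul_mem ha' hb) (V.mul_mem hb' ha)
  have hfr : ∀ y ∈ V, y ∈ frac A := by
    intro y hy
    rw [hV] at hy
    induction hy using Algebra.adjoin_induction with
    | mem y hy =>
      rw [Set.mem_singleton_iff] at hy
      rw [hy]
      exact frac_mono (le_loc hRS) hx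
    | algebraMap a => exact le_frac A a.2
    | add a b _ _ ha hb => exact add_mem ha hb
    | mul a b _ _ ha hb => exact mul_mem ha hb
  exact (DSimple.loc hRS hsimp hS).mem_of_fg hstA (N := Subalgebra.toSubmodule V) hDV
    hint.fg_adjoin_singleton hfr hxV

end Pool.Agent.Y43.IL
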