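import Pool.Agent.Y377.IL.Stm

/-!
A locally nilpotent derivation gives a family of affine lines; proof of `S_CN` (project IL).
-/

set_option autoImplicit false

namespace Pool.Agent.Y43.IL

open Pool.Agent.Y377.EL Pool.Agent.Y377.IL

theorem t_CN : Pool.Agent.Y377.IL.S_EXP → Pool.Agent.Y377.IL.S_CN := by
  intro hEXP K _ _ δ S hS
  have hch : CharZero K := charZero_of_injective_algebraMap (algebraMap ℂ K).injective
  obtain ⟨e, he, -⟩ := hEXP K δ
  have hcoe : ∀ (x : K) (n : ℕ), PowerSeries.coeff n (e x) = (en δ ^ n) x / (n.factorial : K) := by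
    intro x n
    rw [he, expD, PowerSeries.coeff_mk]
  have hpol : ∀ s : S, ∃ p : Polynomial K, (p : PowerSeries K) = e (s : K) := by
    intro s
    obtain ⟨k, hk⟩ := hS s s.2
    refine ⟨PowerSeries.trunc k (e (s : K)), ?_⟩
    ext n
    rw [Polynomial.coeff_coe, PowerSeries.coeff_trunc]
    split_ifs with h
    · rfl
    · rw [hcoe]
      obtain ⟨m, rfl⟩ : ∃ m, n = m + k := ⟨n - k, by omega⟩
      rw [pow_add, Module.End.mul_apply, hk, map_zero, zero_div]
  choose g hg using hpol
  have hginj : ∀ p q : Polynomial K, (p : PowerSeries K) = q → p = q :=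
    fun p q h => Polynomial.coe_injective K h
  let G : S →ₐ[ℂ] Polynomial K :=
    { toFun := g
      map_one' := hginj _ _ (by rw [hg, OneMemClass.coe_one, map_one, Polynomial.coe_one])
      map_mul' := fun a b => hginj _ _ (by
        rw [hg, MulMemClass.coe_mul, map_mul, Polynomial.coe_mul, hg, hg])
      map_zero' := hginj _ _ (by rw [hg, ZeroMemClass.coe_zero, map_zero, Polynomial.coe_zero])
      map_add' := fun a b => hginj _ _ (by
        rw [hg, AddMemClass.coe_add, map_add, Polynomial.coe_add, hg, hg])
      commutes' := fun c => hginj _ _ (by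
        rw [hg, Subalgebra.coe_algebraMap, AlgHom.commutes,
          IsScalarTower.algebraMap_apply ℂ K (Polynomial K), Polynomial.algebraMap_eq,
          Polynomial.coe_C, IsScalarTower.algebraMap_apply ℂ K (PowerSeries K)]
        rfl) }
  have hG : ∀ s : S, (G s : PowerSeries K) = e (s : K) := hg
  have hGinj : Function.Injective G := by
    intro a b h
    have h1 : e (a : K) = e (b : K) := by rw [← hG, ← hG, h]
    exact Subtype.ext (e.toRingHom.injective h1)
  let Gr : S →ₐ[ℂ] RatFunc K := (IsScalarTower.toAlgHom ℂ (Polynomial K) (RatFunc K)).comp G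
  have hGr : ∀ s : S, Gr s = algebraMap (Polynomial K) (RatFunc K) (G s) := fun s => rfl
  have hGrinj : Function.Injective Gr := fun a b h =>
    hGinj (RatFunc.algebraMap_injective K h)
  let _ : Algebra S (frac S) := (Subalgebra.inclusion
    (show S ≤ (frac S).toSubalgebra from fun x hx => le_frac S hx)).toRingHom.toAlgebra
  have hcoe' : ∀ s : S, ((algebraMap S (frac S) s : frac S) : K) = s := fun s => rfl
  have : IsScalarTower ℂ S (frac S) := IsScalarTower.of_algebraMap_eq fun c => rfl
  have : IsFractionRing S (frac S) := by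
    refine { map_units := ?_, surj := ?_, exists_of_eq := ?_ }
    · rintro ⟨y, hy⟩
      have hy0 : y ≠ 0 := nonZeroDivisors.ne_zero hy
      refine IsUnit.mk0 _ ?_
      intro h
      apply hy0
      apply Subtype.ext
      have h1 : ((algebraMap S (frac S) y : frac S) : K) = ((0 : frac S) : K) :=
        congrArg (fun z : frac S => (z : K)) h
      exact h1
    · rintro ⟨x, hx⟩
      obtain ⟨r, hr, hr0, hrx⟩ := hx
      refine ⟨(⟨r * x, hrx⟩, ⟨⟨r, hr⟩, ?_⟩), ?_⟩
      · exact mem_nonZeroDivisors_of_ne_zero (fun h => hr0 (congrArg Subtype.val h))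
      · apply Subtype.ext
        change x * r = r * x
        ring
    · intro x y h
      refine ⟨1, ?_⟩
      have h1 : ((algebraMap S (frac S) x : frac S) : K) = ((algebraMap S (frac S) y : frac S) : K) :=
        congrArg (fun z : frac S => (z : K)) h
      have h2 : x = y := Subtype.ext h1
      rw [h2]
  refine ⟨K, inferInstance, inferInstance, IsFractionRing.liftAlgHom (g := Gr) hGrinj, ?_, ?_⟩
  · intro x c hxc
    obtain ⟨r, hr, hr0, hrx⟩ := x.2
    have h1 : algebraMap S (frac S) ⟨r, hr⟩ * x = algebraMap S (frac S) ⟨r * x, hrx⟩ :=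
      Subtype.ext rfl
    have h2 := congrArg (IsFractionRing.liftAlgHom (g := Gr) hGrinj) h1
    rw [map_mul, hxc, IsFractionRing.liftAlgHom_apply, IsFractionRing.liftAlgHom_apply,
      IsFractionRing.lift_algebraMap, IsFractionRing.lift_algebraMap] at h2
    have h3 : G ⟨r, hr⟩ * Polynomial.C c = G ⟨r * x, hrx⟩ := by
      apply RatFunc.algebraMap_injective K
      rw [map_mul, ← Polynomial.algebraMap_eq, ← IsScalarTower.algebraMap_apply]
      exact h2
    have h4 := congrArg (fun p : Polynomial K => (p : PowerSeries K)) h3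
    simp only [Polynomial.coe_mul, hG, Polynomial.coe_C] at h4
    rw [map_mul] at h4
    have hr0' : e r ≠ 0 := (map_ne_zero_iff e.toRingHom e.toRingHom.injective).2 hr0
    have h5 : PowerSeries.C c = e (x : K) := mul_left_cancel₀ hr0' h4
    have h6 := hcoe (x : K) 1
    rw [← h5, PowerSeries.coeff_C, if_neg one_ne_zero, pow_one, Nat.factorial_one, Nat.cast_one,
      div_one] at h6
    exact h6.symm
  · intro x hx
    refine ⟨G ⟨x, hx⟩, ?_⟩
    have h1 : x = algebraMap S (frac S) ⟨x, hx⟩ := Subtype.ext rfl
    conv_lhs => rw [h1]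
    rw [IsFractionRing.liftAlgHom_apply, IsFractionRing.lift_algebraMap]
    rfl

end Pool.Agent.Y43.IL
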