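import Pool.Agent.Y377.IL.Stm

/-!
Generalised eigenvectors generate; proof of `S_GE` (project IL).
-/

set_option autoImplicit false

namespace Pool.Agent.Y43.IL

open Pool.Agent.Y377.EL Pool.Agent.Y377.IL

variable {K : Type} [Field K] [Algebra ℂ K]

theorem sub_smul_apply (δ : Derivation ℂ K K) (μ : ℂ) (a : K) :
    (en δ - μ • (1 : Module.End ℂ K)) a = δ a - μ • a := rfl

/-- products of generalised eigenvectors -/
theorem gen_mul (δ : Derivation ℂ K K) (μ ν : ℂ) : ∀ (N k l : ℕ), k + l ≤ N → ∀ a b : K,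
    ((en δ - μ • (1 : Module.End ℂ K)) ^ k) a = 0 →
    ((en δ - ν • (1 : Module.End ℂ K)) ^ l) b = 0 →
    ((en δ - (μ + ν) • (1 : Module.End ℂ K)) ^ N) (a * b) = 0 := by
  intro N
  induction N with
  | zero =>
    intro k l hkl a b ha hb
    have hk : k = 0 := by omega
    rw [hk, pow_zero, Module.End.one_apply] at ha
    rw [ha, zero_mul, map_zero]
  | succ N ih =>
    intro k l hkl a b ha hb
    rcases Nat.eq_zero_or_pos k with hk | hk
    · rw [hk, pow_zero, Module.End.one_apply] at ha
      rw [ha, zero_mul, map_zero]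
    rcases Nat.eq_zero_or_pos l with hl | hl
    · rw [hl, pow_zero, Module.End.one_apply] at hb
      rw [hb, mul_zero, map_zero]
    obtain ⟨k, rfl⟩ : ∃ m, k = m + 1 := ⟨k - 1, by omega⟩
    obtain ⟨l, rfl⟩ : ∃ m, l = m + 1 := ⟨l - 1, by omega⟩
    have h1 : (en δ - (μ + ν) • (1 : Module.End ℂ K)) (a * b) =
        (en δ - μ • (1 : Module.End ℂ K)) a * b + a * (en δ - ν • (1 : Module.End ℂ K)) b := by
      rw [sub_smul_apply, sub_smul_apply, sub_smul_apply, δ.leibniz, smul_eq_mul, smul_eq_mul,
        Algebra.smul_def, Algebra.smul_def, Algebra.smul_def, map_add]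
      ring
    rw [pow_succ, Module.End.mul_apply, h1, map_add]
    rw [pow_succ, Module.End.mul_apply] at ha hb
    have h2 := ih k (l + 1) (by omega) ((en δ - μ • (1 : Module.End ℂ K)) a) b ha
      (by rw [pow_succ, Module.End.mul_apply]; exact hb)
    have h3 := ih (k + 1) l (by omega) a ((en δ - ν • (1 : Module.End ℂ K)) b)
      (by rw [pow_succ, Module.End.mul_apply]; exact ha) hb
    rw [h2, h3, add_zero]

/-- vectors on which the derivation acts linearly -/
theorem gen_lin (δ : Derivation ℂ K K) (V : Submodule ℂ K) {n : ℕ} (T : (Fin n → ℂ) →ₗ[ℂ] K)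
    (g : Module.End ℂ (Fin n → ℂ)) (h : ∀ v, δ (T v) = T (g v)) (hV : ∀ v, T v ∈ V)
    (v : Fin n → ℂ) : T v ∈ ⨆ μ : ℂ, V ⊓ (en δ).maxGenEigenspace μ := by
  have hv : v ∈ ⨆ μ : ℂ, g.maxGenEigenspace μ := by
    rw [Module.End.iSup_maxGenEigenspace_eq_top]
    exact Submodule.mem_top
  refine Submodule.iSup_induction (fun μ : ℂ => g.maxGenEigenspace μ)
    (motive := fun v => T v ∈ ⨆ μ : ℂ, V ⊓ (en δ).maxGenEigenspace μ) hv ?_ ?_ ?_
  · intro μ v hv
    refine Submodule.mem_iSup_of_mem μ ⟨hV v, ?_⟩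
    obtain ⟨k, hk⟩ := Module.End.mem_maxGenEigenspace _ _ _ |>.1 hv
    refine (Module.End.mem_maxGenEigenspace _ _ _).2 ⟨k, ?_⟩
    have h1 : ∀ (k : ℕ) (v : Fin n → ℂ), ((en δ - μ • (1 : Module.End ℂ K)) ^ k) (T v) =
        T (((g - μ • (1 : Module.End ℂ (Fin n → ℂ))) ^ k) v) := by
      intro k
      induction k with
      | zero => intro v; rfl
      | succ k ih =>
        intro v
        have h2 : (en δ - μ • (1 : Module.End ℂ K)) (T v) =
            T ((g - μ • (1 : Module.End ℂ (Fin n → ℂ))) v) := by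
          rw [sub_smul_apply, h]
          change T (g v) - μ • T v = T (g v - μ • v)
          rw [map_sub, map_smul]
        rw [pow_succ, Module.End.mul_apply, h2, ih, pow_succ, Module.End.mul_apply]
    rw [h1, hk, map_zero]
  · rw [map_zero]
    exact Submodule.zero_mem _
  · intro x y hx hy
    rw [map_add]
    exact Submodule.add_mem _ hx hy

theorem t_GE : Pool.Agent.Y377.IL.S_GE := by
  intro K _ _ δ R n X Y ξ hR hX hY
  set B := mat R X Y with hB
  set W : Submodule ℂ K := ⨆ μ : ℂ, Subalgebra.toSubmodule B ⊓ (en δ).maxGenEigenspace μ with hW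
  have hXB : ∀ i j, X i j ∈ B := fun i j =>
    (le_sup_right : _ ≤ R ⊔ _) (Algebra.subset_adjoin ⟨i, j, Or.inl rfl⟩)
  have hYB : ∀ i j, Y i j ∈ B := fun i j =>
    (le_sup_right : _ ≤ R ⊔ _) (Algebra.subset_adjoin ⟨i, j, Or.inr rfl⟩)
  have hRB : R ≤ B := le_sup_left
  have hz : ∀ b ∈ B, δ b = 0 → b ∈ W := by
    intro b hb h0
    refine Submodule.mem_iSup_of_mem 0 ⟨hb, (Module.End.mem_maxGenEigenspace _ _ _).2 ⟨1, ?_⟩⟩
    rw [pow_one, sub_smul_apply, h0, zero_smul, sub_zero]
  have hmul : ∀ a ∈ W, ∀ b ∈ W, a * b ∈ W := by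
    intro a ha b hb
    refine Submodule.iSup_induction (fun μ : ℂ => Subalgebra.toSubmodule B ⊓
      (en δ).maxGenEigenspace μ) (motive := fun a => a * b ∈ W) ha ?_ ?_ ?_
    · rintro μ a ⟨ha1, ha2⟩
      refine Submodule.iSup_induction (fun μ : ℂ => Subalgebra.toSubmodule B ⊓
        (en δ).maxGenEigenspace μ) (motive := fun b => a * b ∈ W) hb ?_ ?_ ?_
      · rintro ν b ⟨hb1, hb2⟩
        obtain ⟨k, hk⟩ := (Module.End.mem_maxGenEigenspace _ _ _).1 ha2
        obtain ⟨l, hl⟩ := (Module.End.mem_maxGenEigenspace _ _ _).1 hb2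
        exact Submodule.mem_iSup_of_mem (μ + ν) ⟨B.mul_mem ha1 hb1,
          (Module.End.mem_maxGenEigenspace _ _ _).2
            ⟨k + l, gen_mul δ μ ν (k + l) k l le_rfl a b hk hl⟩⟩
      · rw [mul_zero]; exact W.zero_mem
      · intro x y hx hy
        rw [mul_add]; exact W.add_mem hx hy
    · rw [zero_mul]; exact W.zero_mem
    · intro x y hx hy
      rw [add_mul]; exact W.add_mem hx hy
  let A : Subalgebra ℂ K :=
    { carrier := {y | y ∈ W}
      mul_mem' := fun ha hb => hmul _ ha _ hb
      add_mem' := fun ha hb => W.add_mem ha hb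
      algebraMap_mem' := fun c => hz _ (B.algebraMap_mem c) (δ.map_algebraMap c) }
  have hRA : R ≤ A := fun r hr => hz r (hRB hr) (hR r hr)
  have hXA : ∀ i j, X i j ∈ A := by
    intro i j
    let T : (Fin n → ℂ) →ₗ[ℂ] K :=
      { toFun := fun v => ∑ k, v k • X i k
        map_add' := fun v w => by
          simp only [Pi.add_apply, add_smul, Finset.sum_add_distrib]
        map_smul' := fun c v => by
          simp only [Pi.smul_apply, smul_eq_mul, mul_smul, Finset.smul_sum, RingHom.id_apply] }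
    have h1 := gen_lin δ (Subalgebra.toSubmodule B) T (Matrix.toLin' ξ) (fun v => by
      change δ (∑ k, v k • X i k) = ∑ k, (Matrix.toLin' ξ v) k • X i k
      simp only [map_sum, Derivation.map_smul, hX, Matrix.toLin'_apply, Matrix.mulVec, dotProduct,
        Finset.sum_smul, Finset.smul_sum]
      rw [Finset.sum_comm]
      refine Finset.sum_congr rfl fun k _ => Finset.sum_congr rfl fun m _ => ?_
      rw [Algebra.smul_def, Algebra.smul_def, map_mul]
      ring) (fun v => by
        change ∑ k, v k • X i k ∈ Subalgebra.toSubmodule B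
        exact Submodule.sum_mem _ fun k _ => Submodule.smul_mem _ _ (hXB i k)) (Pi.single j 1)
    have h2 : T (Pi.single j 1) = X i j := by
      change ∑ k, (Pi.single j 1 : Fin n → ℂ) k • X i k = X i j
      rw [Finset.sum_eq_single j]
      · rw [Pi.single_eq_same, one_smul]
      · intro b _ hb
        rw [Pi.single_eq_of_ne hb, zero_smul]
      · intro h; exact absurd (Finset.mem_univ _) h
    rw [h2] at h1
    exact h1
  have hYA : ∀ i j, Y i j ∈ A := by
    intro i j
    let T : (Fin n → ℂ) →ₗ[ℂ] K :=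
      { toFun := fun v => ∑ k, v k • Y k j
        map_add' := fun v w => by
          simp only [Pi.add_apply, add_smul, Finset.sum_add_distrib]
        map_smul' := fun c v => by
          simp only [Pi.smul_apply, smul_eq_mul, mul_smul, Finset.smul_sum, RingHom.id_apply] }
    have h1 := gen_lin δ (Subalgebra.toSubmodule B) T (Matrix.toLin' (-ξ.transpose)) (fun v => by
      change δ (∑ k, v k • Y k j) = ∑ k, (Matrix.toLin' (-ξ.transpose) v) k • Y k j
      simp only [map_sum, Derivation.map_smul, hY, Matrix.toLin'_apply, Matrix.mulVec, dotProduct,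
        Finset.sum_smul, smul_neg, Finset.smul_sum, Matrix.neg_apply, Matrix.transpose_apply,
        neg_mul, neg_smul, Finset.sum_neg_distrib]
      rw [Finset.sum_comm]
      congr 1
      refine Finset.sum_congr rfl fun k _ => Finset.sum_congr rfl fun m _ => ?_
      rw [Algebra.smul_def, Algebra.smul_def, map_mul]
      ring) (fun v => by
        change ∑ k, v k • Y k j ∈ Subalgebra.toSubmodule B
        exact Submodule.sum_mem _ fun k _ => Submodule.smul_mem _ _ (hYB k j)) (Pi.single i 1)
    have h2 : T (Pi.single i 1) = Y i j := by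
      change ∑ k, (Pi.single i 1 : Fin n → ℂ) k • Y k j = Y i j
      rw [Finset.sum_eq_single i]
      · rw [Pi.single_eq_same, one_smul]
      · intro b _ hb
        rw [Pi.single_eq_of_ne hb, zero_smul]
      · intro h; exact absurd (Finset.mem_univ _) h
    rw [h2] at h1
    exact h1
  have hBA : B ≤ A := by
    rw [hB]
    refine sup_le hRA (Algebra.adjoin_le ?_)
    rintro x ⟨i, j, rfl | rfl⟩
    · exact hXA i j
    · exact hYA i j
  exact fun b hb => hBA hb

end Pool.Agent.Y43.IL
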